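import Mathlib
import Pool.Agent.TH841.AL.Fin
import Pool.Agent.Q323.FM.Pairs

/-!
# A partial algorithm for curves of genus one: coprime pairs

We construct a partial computable function `φ` on the set of the polynomials `f(x, y)` with integer
coefficients (lists of coefficient lists), such that, whenever `φ(f)` is defined, the value answers
correctly the question whether `f(x, y) = 0` has infinitely many rational solutions, and consider
the curves of genus one `C : y² = b x⁴ - (A + B) x² + A B / b` (`b` a squarefree divisor of `A B`)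
with points everywhere locally, attached to the elliptic curves `y² = x (x - A) (x - B)`,
`A = D a`, `B = D b`, `a` and `b` coprime (two independent parameters, all the elliptic curves with
full rational 2-torsion). We show that the second moment of the number of the `C` at which `φ` is
undefined is bounded, so that outside a set of pairs of arbitrarily small density `φ` is
undefined at a bounded number of the `C` only, although the number of the `C` tends to infinity.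
-/

set_option autoImplicit false

namespace Pool.Agent.Results.MP_d6ddbd_nt.BoundedlyManyUndecided

open Finset

/-- the set `Z_f(ℚ)` of the rational zeros of `f = ∑ L_(i,j) x^i y^j` -/
def Zeros (L : List (List ℤ)) : Set (ℚ × ℚ) := {p : ℚ × ℚ |
  ∑ i ∈ Finset.range L.length, ∑ j ∈ Finset.range (L.getD i []).length,
    (((L.getD i []).getD j 0 : ℤ) : ℚ) * p.1 ^ i * p.2 ^ j = 0}

/-- the polynomial `y² - (b x⁴ - (A + B) x² + A B / b)` -/
def quartic (A B b : ℤ) : List (List ℤ) := [[-(A * B / b), 0, 1], [], [A + B], [], [-b]]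

/-- the curve `C : N² = b M⁴ - (A + B) M² e² + (A B / b) e⁴` has a point over `K`, with
`(M, e) ≠ (0, 0)` -/
def Solvable (K : Type) [Field K] (A B b : ℤ) : Prop := ∃ N M e : K, (M ≠ 0 ∨ e ≠ 0) ∧
  N ^ 2 = (b : K) * M ^ 4 + ((-(A + B) : ℤ) : K) * M ^ 2 * e ^ 2 +
    ((A * B / b : ℤ) : K) * e ^ 4

/-- the squarefree `b ∣ A B` for which `C` has points everywhere locally -/
def ELS (A B : ℤ) : Set ℤ := {b | Squarefree b ∧ b ∣ A * B ∧ Solvable ℝ A B b ∧
  ∀ (p : ℕ) [Fact p.Prime], Solvable ℚ_[p] A B b}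

/-- the `b` in `ELS A B` for which the algorithm `φ` does not halt on the input
`y² - (b x⁴ - (A + B) x² + A B / b)` -/
def Undecided (φ : List (List ℤ) →. Bool) (A B : ℤ) : Set ℤ :=
  {b | b ∈ ELS A B ∧ ¬ (φ (quartic A B b)).Dom}

open Classical in
/-- **Theorem.** There is a partial computable function `φ` from the lists of lists of integers
(polynomials `f(x, y)`) to `{true, false}` such that
(1) if `φ(f)` is defined, then it is `true` if and only if `f` has infinitely many rational zeros;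
in fact `f` has no rational zeros then;
(2) for every `L` there is `C` such that for all `D ≠ 0`, `X ≥ 1` and `|N₁|, |N₂| ≤ X ^ L` the sum
of `(#Undecided φ (D a) (D b)) ^ 2` over the coprime pairs `(a, b)` of integers
`N₁ < a ≤ N₁ + X`, `N₂ < b ≤ N₂ + X` with `a`, `b`, `a - b` nonzero is at most
`C * 128 ^ ω(D) * X ^ 2`;
(3) let `D ≠ 0`. For all `δ, ε > 0` and `L` there are `K` and `X₀` such that for `X ≥ X₀` and
`|N₁|, |N₂| ≤ X ^ L` all the coprime pairs `(a, b)` of integers `N₁ < a ≤ N₁ + X`,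
`N₂ < b ≤ N₂ + X` with at most `ε X ^ 2` exceptions satisfy, for `A = D a` and `B = D b`:
`A`, `B`, `A - B` are nonzero, `#Undecided φ A B ≤ K`, and
`#ELS A B ≥ (log X) ^ ((3 / 2) log 2 - δ)`. -/
theorem result :
    ∃ φ : List (List ℤ) →. Bool, Partrec φ ∧
    (∀ L, ∀ r ∈ φ L, (r = true ↔ (Zeros L).Infinite)) ∧ (∀ L, (φ L).Dom → Zeros L = ∅) ∧
    (∀ L : ℕ, ∃ C : ℝ, ∀ (D N₁ N₂ : ℤ) (X : ℕ), D ≠ 0 → 1 ≤ X → |N₁| ≤ (X : ℤ) ^ L →
      |N₂| ≤ (X : ℤ) ^ L →
      ∑ t ∈ (Ioc N₁ (N₁ + (X : ℤ)) ×ˢ Ioc N₂ (N₂ + (X : ℤ))).filter (fun t : ℤ × ℤ =>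
        IsCoprime t.1 t.2 ∧ t.1 ≠ 0 ∧ t.2 ≠ 0 ∧ t.1 ≠ t.2),
        ((Undecided φ (D * t.1) (D * t.2)).ncard : ℝ) ^ 2 ≤
      C * 128 ^ D.natAbs.primeFactors.card * X ^ 2) ∧
    ∀ (D : ℤ) (_ : D ≠ 0) (δ ε : ℝ) (L : ℕ) (_ : 0 < δ) (_ : 0 < ε),
    ∃ K X₀ : ℕ, ∀ (N₁ N₂ : ℤ) (X : ℕ), X₀ ≤ X → |N₁| ≤ (X : ℤ) ^ L → |N₂| ≤ (X : ℤ) ^ L →
      (((Ioc N₁ (N₁ + (X : ℤ)) ×ˢ Ioc N₂ (N₂ + (X : ℤ))).filter (fun t : ℤ × ℤ =>
        IsCoprime t.1 t.2 ∧ ¬ ∀ A B : ℤ, A = D * t.1 → B = D * t.2 →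
        A ≠ 0 ∧ B ≠ 0 ∧ A ≠ B ∧ (Undecided φ A B).ncard ≤ K ∧
        (Real.log X) ^ (3 / 2 * Real.log 2 - δ) ≤ ((ELS A B).ncard : ℝ))).card : ℝ) ≤
        ε * X ^ 2 := by
  have hre := Pool.Agent.TH841.AL.re_P
  refine ⟨fun L => (Part.assert (Pool.Agent.TH841.AL.P L) fun _ => Part.some ()).map
    (fun _ => false), Partrec.map hre (Computable.const false).to₂, ?_, ?_, ?_⟩
  · intro L r hr
    obtain ⟨u, hu, rfl⟩ := (Part.mem_map_iff _).1 hr
    have hP : Pool.Agent.TH841.AL.P L := (Part.mem_assert_iff.1 hu).1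
    have h1 : Zeros L = ∅ := Pool.Agent.TH841.AL.P_sound L hP
    constructor
    · intro h
      exact Bool.noConfusion h
    · intro h
      rw [h1] at h
      exact absurd Set.finite_empty h
  · rintro L ⟨hP, -⟩
    exact Pool.Agent.TH841.AL.P_sound L hP
  have key : ∀ A B : ℤ, A ≠ 0 → B ≠ 0 → A ≠ B → (Undecided (fun L =>
      (Part.assert (Pool.Agent.TH841.AL.P L) fun _ => Part.some ()).map (fun _ => false)) A B).ncard
      ≤ (Pool.Agent.TH841.FD.LF A B).ncard := by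
    intro A B hA hB hAB
    refine le_trans (Set.ncard_le_ncard ?_ ?_)
      (Pool.Agent.TH841.AL.undecided_le hA hB hAB)
    · rintro b ⟨h1, h2⟩
      exact ⟨h1, fun h3 => h2 ⟨h3, trivial⟩⟩
    · exact (Pool.Agent.TH841.NO.sq_finite (mul_ne_zero hA hB)).subset fun b h => h.1
  generalize (fun L => (Part.assert (Pool.Agent.TH841.AL.P L) fun _ => Part.some ()).map
    (fun _ => false) : List (List ℤ) →. Bool) = φ at key
  refine ⟨fun L => ?_, fun D hD δ ε L hδ hε => ?_⟩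
  · obtain ⟨C, hC⟩ := Pool.Agent.Q323.FM.pairs_mom L
    refine ⟨C, fun D N₁ N₂ X hD hX h1 h2 => le_trans (sum_le_sum fun t ht => ?_)
      (hC D N₁ N₂ X hD hX h1 h2)⟩
    obtain ⟨k1, k2, k3, k4⟩ := (mem_filter.1 ht).2
    exact pow_le_pow_left₀ (Nat.cast_nonneg _) (Nat.cast_le.2 (key _ _ (mul_ne_zero hD k2)
      (mul_ne_zero hD k3) fun h' => k4 (mul_left_cancel₀ hD h'))) 2
  · obtain ⟨K, X0, h⟩ := Pool.Agent.Q323.FM.pairs_ae2 D hD δ ε L hδ hε
    refine ⟨K, X0, fun N₁ N₂ X hX h1 h2 => le_trans (Nat.cast_le.2 (card_le_card fun t ht => ?_))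
      (h N₁ N₂ X hX h1 h2)⟩
    obtain ⟨ht1, ht2, ht3⟩ := mem_filter.1 ht
    refine mem_filter.2 ⟨ht1, ht2, fun hall => ht3 fun A B hA hB => ?_⟩
    obtain ⟨c1, c2, c3, c4, c5⟩ := hall A B hA hB
    exact ⟨c1, c2, c3, (key A B c1 c2 c3).trans c4, c5⟩

end Pool.Agent.Results.MP_d6ddbd_nt.BoundedlyManyUndecided
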