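import Mathlib
import Pool.Agent.TH841.AL.Fin
import Pool.Agent.Q323.FM.Pencil

/-!
# A partial algorithm for curves of genus one: moments in one-parameter families

We construct a partial computable function `φ` on the set of the polynomials `f(x, y)` with integer
coefficients (lists of coefficient lists), such that, whenever `φ(f)` is defined, the value answers
correctly the question whether `f(x, y) = 0` has infinitely many rational solutions, and consider
the curves of genus one `C : y² = b x⁴ - (A + B) x² + A B / b` (`b` a squarefree divisor of `A B`)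
with points everywhere locally, attached to the members of a one-parameter family
`y² = x (x - A) (x - B)`, `A = D(t) u₀(t)`, `B = D(t) u₁(t)`, of non-isotrivial elliptic curves. The
average of the number of the `C` at which `φ` is undefined is bounded, and in the strictly balanced
case all its moments are bounded off a set of density zero, although the number of the `C` tends to
infinity for almost all `t`.
-/

set_option autoImplicit false

namespace Pool.Agent.Results.MP_d6ddbd_nt.PencilsAllMoments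

open Finset Polynomial

/-- the set `Z_f(ℚ)` of the rational zeros of `f = ∑ L_(i,j) x^i y^j` -/
def Zeros (L : List (List ℤ)) : Set (ℚ × ℚ) := {p : ℚ × ℚ |
  ∑ i ∈ Finset.range L.length, ∑ j ∈ Finset.range (L.getD i []).length,
    (((L.getD i []).getD j 0 : ℤ) : ℚ) * p.1 ^ i * p.2 ^ j = 0}

/-- the polynomial `y² - (b x⁴ - (A + B) x² + A B / b)` -/
def quartic (A B b : ℤ) : List (List ℤ) := [[-(A * B / b), 0, 1], [], [A + B], [], [-b]]

/-- the curve `C : N² = b M⁴ - (A + B) M² e² + (A B / b) e⁴` has a point over `K`, with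
`(M, e) ≠ (0, 0)` -/
def Solvable (K : Type) [Field K] (A B b : ℤ) : Prop := ∃ N M e : K, (M ≠ 0 ∨ e ≠ 0) ∧
  N ^ 2 = (b : K) * M ^ 4 + ((-(A + B) : ℤ) : K) * M ^ 2 * e ^ 2 +
    ((A * B / b : ℤ) : K) * e ^ 4

/-- the squarefree `b ∣ A B` for which `C` has points everywhere locally -/
def ELS (A B : ℤ) : Set ℤ := {b | Squarefree b ∧ b ∣ A * B ∧ Solvable ℝ A B b ∧
  ∀ (p : ℕ) [Fact p.Prime], Solvable ℚ_[p] A B b}

/-- the `b` in `ELS A B` for which the algorithm `φ` does not halt on the input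
`y² - (b x⁴ - (A + B) x² + A B / b)` -/
def Undecided (φ : List (List ℤ) →. Bool) (A B : ℤ) : Set ℤ :=
  {b | b ∈ ELS A B ∧ ¬ (φ (quartic A B b)).Dom}

/-- `u_k = a_k ∏ f_{k,i}` -/
noncomputable def u {n : Fin 3 → ℕ} (a : Fin 3 → ℤ) (f : ∀ k : Fin 3, Fin (n k) → ℤ[X])
    (k : Fin 3) : ℤ[X] := C (a k) * ∏ i, f k i

/-- `v` is a square modulo `f` in `ℚ[t]` -/
def SqMod (f v : ℤ[X]) : Prop := ∃ q : ℚ[X], f.map (Int.castRingHom ℚ) ∣
  (q ^ 2 - v.map (Int.castRingHom ℚ))

/-- `- D u₁`, `- D u₀`, `D u₀` -/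
noncomputable def v {n : Fin 3 → ℕ} (a : Fin 3 → ℤ) (f : ∀ k : Fin 3, Fin (n k) → ℤ[X])
    (D : ℤ[X]) : Fin 3 → ℤ[X] := ![-(D * u a f 1), -(D * u a f 0), D * u a f 0]

open Classical in
/-- the balance condition: `2 n_k + s_k ≤ n₀ + n₁ + n₂` for all `k`, where `s_k` is the number of
the factors `f_{k,i}` modulo which `v_k` is a square -/
def Balanced {n : Fin 3 → ℕ} (a : Fin 3 → ℤ) (f : ∀ k : Fin 3, Fin (n k) → ℤ[X])
    (D : ℤ[X]) : Prop :=
  ∀ k, 2 * n k + (univ.filter (fun i => SqMod (f k i) (v a f D k))).card ≤ n 0 + n 1 + n 2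

open Classical in
/-- the constant `κ = n₀ + n₁ - (n₂ + s) / 2 + r / 2`, where `s` is the number of the factors of
`u₂` modulo which `D u₀` is a square, and `r` the number of the `g_i` modulo which `u₀ u₁` is not
a square -/
noncomputable def κ {n : Fin 3 → ℕ} {m : ℕ} (a : Fin 3 → ℤ) (f : ∀ k : Fin 3, Fin (n k) → ℤ[X])
    (D : ℤ[X]) (g : Fin m → ℤ[X]) : ℝ :=
  (n 0 : ℝ) + n 1 -
    ((n 2 : ℝ) + (univ.filter (fun i => SqMod (f 2 i) (D * u a f 0))).card) / 2 +
    ((univ.filter (fun i => ¬ SqMod (g i) (u a f 0 * u a f 1))).card : ℝ) / 2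

open Classical in
/-- the integers `N < t ≤ N + M` with `(D u_k)(t) ≠ 0` for all `k` -/
noncomputable def Par {n : Fin 3 → ℕ} (a : Fin 3 → ℤ) (f : ∀ k : Fin 3, Fin (n k) → ℤ[X])
    (D : ℤ[X]) (N : ℤ) (M : ℕ) : Finset ℤ :=
  (Ioc N (N + (M : ℤ))).filter (fun t => ∀ k, (D * u a f k).eval t ≠ 0)

open Classical in
/-- a set of integers of density zero, uniformly in all the intervals `(N, N + M]` with
`|N| ≤ M ^ L`, for every `L` -/
def DensityZero (Z : Set ℤ) : Prop := ∀ (L : ℕ) (ε : ℝ), 0 < ε → ∃ M₀ : ℕ, ∀ (N : ℤ) (M : ℕ),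
  M₀ ≤ M → |N| ≤ (M : ℤ) ^ L → (((Ioc N (N + (M : ℤ))).filter (fun t => t ∈ Z)).card : ℝ) ≤ ε * M

open Classical in
/-- **Theorem.** There is a partial computable function `φ` from the lists of lists of integers
(polynomials `f(x, y)`) to `{true, false}` such that
(1) if `φ(f)` is defined, then it is `true` if and only if `f` has infinitely many rational zeros;
in fact `f` has no rational zeros then.
Let `u_k = a_k ∏_{i < n_k} f_{k,i}`, `k = 0, 1, 2`, with `u₀ - u₁ = u₂`, where the `a_k` are nonzero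
and the `n₀ + n₁ + n₂` polynomials `f_{k,i}` with integer coefficients are irreducible of positive
degree and pairwise non-associated; let `D ≠ 0` be a polynomial with integer coefficients divisible
by none of the `f_{k,i}`. Write `A = (D u₀)(t)`, `B = (D u₁)(t)`.
(2) Assume the balance condition. For every `L` there is `K` such that for `M ≥ 1` and
`|N| ≤ M ^ L` the sum of `#Undecided φ A B` over the `t` in `(N, N + M]` with `A`, `B`, `A - B`
nonzero is at most `K M`.
(3) Assume that `2 n_k < n₀ + n₁ + n₂` for all `k`. There is a set `Z` of density zero such that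
`A`, `B`, `A - B` are nonzero for `t` outside of `Z` and for all `s` and `L` there is `K` such that
for `M ≥ 1` and `|N| ≤ M ^ L` the sum of `(#Undecided φ A B) ^ s` over the `t` in `(N, N + M]`
outside of `Z` is at most `K M`.
(4) Assume the balance condition, and `D = c g₁ ⋯ g_m` with irreducible pairwise non-associated
`g_i` of positive degree. For all `δ, ε > 0` and `L` there is `M₀` such that for `M ≥ M₀` and
`|N| ≤ M ^ L` the inequality `#ELS A B ≥ (log M) ^ (κ log 2 - δ)` holds for all the `t` in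
`(N, N + M]` with at most `ε M` exceptions. -/
theorem result :
    ∃ φ : List (List ℤ) →. Bool, Partrec φ ∧
    (∀ L, ∀ r ∈ φ L, (r = true ↔ (Zeros L).Infinite)) ∧ (∀ L, (φ L).Dom → Zeros L = ∅) ∧
    ∀ (n : Fin 3 → ℕ) (a : Fin 3 → ℤ) (f : ∀ k : Fin 3, Fin (n k) → ℤ[X])
    (D : ℤ[X]) (_ : ∀ k, a k ≠ 0) (_ : D ≠ 0)
    (_ : ∀ k i, Irreducible (f k i) ∧ 0 < (f k i).natDegree)
    (_ : ∀ k i l j, (⟨k, i⟩ : Σ k : Fin 3, Fin (n k)) ≠ ⟨l, j⟩ → ¬ Associated (f k i) (f l j))
    (_ : u a f 0 - u a f 1 = u a f 2) (_ : ∀ k i, ¬ f k i ∣ D),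
    (Balanced a f D → ∀ L : ℕ, ∃ K : ℝ, ∀ (N : ℤ) (M : ℕ), 1 ≤ M → |N| ≤ (M : ℤ) ^ L →
      ∑ t ∈ Par a f D N M,
        ((Undecided φ ((D * u a f 0).eval t) ((D * u a f 1).eval t)).ncard : ℝ) ≤ K * M) ∧
    ((∀ k, 2 * n k < n 0 + n 1 + n 2) → ∃ Z : Set ℤ, DensityZero Z ∧
      (∀ t, t ∉ Z → ∀ k, (D * u a f k).eval t ≠ 0) ∧
      ∀ s L : ℕ, ∃ K : ℝ, ∀ (N : ℤ) (M : ℕ), 1 ≤ M → |N| ≤ (M : ℤ) ^ L →
        ∑ t ∈ (Ioc N (N + (M : ℤ))).filter (fun t => t ∉ Z),
          ((Undecided φ ((D * u a f 0).eval t) ((D * u a f 1).eval t)).ncard : ℝ) ^ s ≤ K * M) ∧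
    (Balanced a f D → ∀ (m : ℕ) (c : ℤ) (g : Fin m → ℤ[X]), D = C c * ∏ i, g i →
      (∀ i, Irreducible (g i) ∧ 0 < (g i).natDegree) →
      (∀ i j, i ≠ j → ¬ Associated (g i) (g j)) →
      ∀ (δ ε : ℝ) (L : ℕ), 0 < δ → 0 < ε →
      ∃ M₀ : ℕ, ∀ (N : ℤ) (M : ℕ), M₀ ≤ M → |N| ≤ (M : ℤ) ^ L →
        (((Ioc N (N + (M : ℤ))).filter (fun t => ¬
          (Real.log M) ^ (κ a f D g * Real.log 2 - δ) ≤
            ((ELS ((D * u a f 0).eval t) ((D * u a f 1).eval t)).ncard : ℝ))).card : ℝ) ≤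
          ε * M) := by
  have hre := Pool.Agent.TH841.AL.re_P
  refine ⟨fun L => (Part.assert (Pool.Agent.TH841.AL.P L) fun _ => Part.some ()).map
    (fun _ => false), Partrec.map hre (Computable.const false).to₂, ?_, ?_, ?_⟩
  · intro L r hr
    obtain ⟨u, hu, rfl⟩ := (Part.mem_map_iff _).1 hr
    have hP : Pool.Agent.TH841.AL.P L := (Part.mem_assert_iff.1 hu).1
    have h1 : Zeros L = ∅ := Pool.Agent.TH841.AL.P_sound L hP
    constructor
    · intro h
      exact Bool.noConfusion h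
    · intro h
      rw [h1] at h
      exact absurd Set.finite_empty h
  · rintro L ⟨hP, -⟩
    exact Pool.Agent.TH841.AL.P_sound L hP
  have key : ∀ A B : ℤ, A ≠ 0 → B ≠ 0 → A ≠ B → (Undecided (fun L =>
      (Part.assert (Pool.Agent.TH841.AL.P L) fun _ => Part.some ()).map (fun _ => false)) A B).ncard
      ≤ (Pool.Agent.TH841.FD.LF A B).ncard := by
    intro A B hA hB hAB
    refine le_trans (Set.ncard_le_ncard ?_ ?_)
      (Pool.Agent.TH841.AL.undecided_le hA hB hAB)
    · rintro b ⟨h1, h2⟩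
      exact ⟨h1, fun h3 => h2 ⟨h3, trivial⟩⟩
    · exact (Pool.Agent.TH841.NO.sq_finite (mul_ne_zero hA hB)).subset fun b h => h.1
  generalize (fun L => (Part.assert (Pool.Agent.TH841.AL.P L) fun _ => Part.some ()).map
    (fun _ => false) : List (List ℤ) →. Bool) = φ at key
  intro n a f D ha hD hf hff hu hDf
  have hirr0 : Pool.Agent.TH841.PT.Irr (Pool.Agent.TH841.TR.fp f) :=
    ⟨fun x => (hf x.1 x.2).1, fun x => (hf x.1 x.2).2, fun x y hxy => hff x.1 x.2 y.1 y.2 hxy⟩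
  have hlf : ∀ t, (∀ k, (D * u a f k).eval t ≠ 0) →
      ((Undecided φ ((D * u a f 0).eval t) ((D * u a f 1).eval t)).ncard : ℝ) ≤
        ((Pool.Agent.TH841.FD.LF ((D * u a f 0).eval t) ((D * u a f 1).eval t)).ncard : ℝ) := by
    intro t ht
    exact Nat.cast_le.2 (key _ _ (ht 0) (ht 1) (Pool.Agent.Q323.FM.pen_ne hu ht))
  have hbal : Balanced a f D → Pool.Agent.TH841.TR.Bal D a f := fun hb =>
    Pool.Agent.TH841.TR.bal_of (v := v a f D) rfl rfl rfl fun k => hb k
  refine ⟨fun hb L => ?_, fun hn => ?_, fun hb m c g hDg hg hgg δ ε L hδ hε => ?_⟩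
  · obtain ⟨K, hK⟩ := Pool.Agent.Q323.FM.pen_avg ha hD hirr0 hu hDf (hbal hb) L
    exact ⟨K, fun N M hM hN => le_trans (sum_le_sum fun t ht => hlf t (mem_filter.1 ht).2)
      (hK N M hM hN)⟩
  · obtain ⟨Z, h1, h2, h3⟩ := Pool.Agent.Q323.FM.pen_mom ha hD hirr0 hu hDf hn
    refine ⟨Z, h1, h2, fun s L => ?_⟩
    obtain ⟨K, hK⟩ := h3 s L
    exact ⟨K, fun N M hM hN => le_trans (sum_le_sum fun t ht => pow_le_pow_left₀
      (Nat.cast_nonneg _) (hlf t (h2 t (mem_filter.1 ht).2)) s) (hK N M hM hN)⟩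
  · have hDG : Pool.Agent.TH841.LS.DG c g = D := hDg.symm
    have hsc : Pool.Agent.TH841.LS.sc a f c g = κ a f D g := by
      unfold Pool.Agent.TH841.LS.sc κ
      rw [hDG]
      rfl
    obtain ⟨M1, h1⟩ := Pool.Agent.Q323.FM.pen_els ha hD hf hff hu hDf (hbal hb) hDg hg hgg δ ε L
      hδ hε
    rw [hsc] at h1
    refine ⟨M1, fun N M hM hN => le_trans (Nat.cast_le.2 (card_le_card fun t ht => ?_))
      (h1 N M hM hN)⟩
    obtain ⟨ht1, ht2⟩ := mem_filter.1 ht
    refine mem_filter.2 ⟨ht1, fun hall => ht2 ?_⟩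
    exact (hall _ _ rfl rfl).2.2.2

end Pool.Agent.Results.MP_d6ddbd_nt.PencilsAllMoments
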