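import Mathlib
import Pool.Agent.Q323.PA.Cur
import Pool.Agent.Y667.RP.Disc
import Pool.Agent.W307.RT.Tors
import Pool.Agent.Y679.Cr.Conv
import Pool.Agent.Y679.Cr.Dens

/-!
# A partial algorithm for a positive proportion of the elliptic curves with full 2-torsion

We construct a partial computable function `φ` on the set of the polynomials `f(x, y)` with integer
coefficients, such that, whenever `φ(f)` is defined, the value answers correctly the question
whether `f(x, y) = 0` has infinitely many rational solutions. Order the elliptic curves over `ℚ`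
with full rational 2-torsion by the naive height, by the absolute value of the minimal discriminant
or by the conductor: for a positive proportion of the curves `φ` is defined at the equation
`y² = x³ + a x + b` and at all the attached quartics `y² = d x⁴ - (A + B) x² + A B / d`.
-/

set_option autoImplicit false

namespace Pool.Agent.Results.MP_d6ddbd_nt.PositiveProportionDecided

open Finset Filter Topology

/-- the set `Z_f(ℚ)` of the rational zeros of `f = ∑ L_(i,j) x^i y^j` -/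
def Zeros (L : List (List ℤ)) : Set (ℚ × ℚ) := {p : ℚ × ℚ |
  ∑ i ∈ Finset.range L.length, ∑ j ∈ Finset.range (L.getD i []).length,
    (((L.getD i []).getD j 0 : ℤ) : ℚ) * p.1 ^ i * p.2 ^ j = 0}

/-- the polynomial `y² - (x³ + a x + b)` -/
def cubic (a b : ℤ) : List (List ℤ) := [[-b, 0, 1], [-a], [], [-1]]

/-- the polynomial `y² - (b x⁴ - (A + B) x² + A B / b)` -/
def quartic (A B b : ℤ) : List (List ℤ) := [[-(A * B / b), 0, 1], [], [A + B], [], [-b]]

/-- the curve `y² = x³ + A x + B` over `ℚ` -/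
def E (A B : ℤ) : WeierstrassCurve ℚ := ⟨0, 0, 0, (A : ℚ), (B : ℚ)⟩

/-- the absolute value of the minimal discriminant of an elliptic curve `W` over `ℚ`: the smallest
absolute value of the discriminant of a Weierstrass equation `V` with integer coefficients which is
isomorphic to `W` over `ℚ` -/
noncomputable def minDisc (W : WeierstrassCurve ℚ) : ℕ :=
  sInf {n : ℕ | ∃ (V : WeierstrassCurve ℤ) (C : WeierstrassCurve.VariableChange ℚ),
    C • W = V.map (Int.castRingHom ℚ) ∧ n = V.Δ.natAbs}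

/-- the naive height of `y² = x³ + A x + B` is at most `Z` -/
def HeightLe (c : ℤ × ℤ) (Z : ℕ) : Prop := 4 * |c.1| ^ 3 ≤ Z ∧ 27 * c.2 ^ 2 ≤ Z

/-- the minimal discriminant of `y² = x³ + A x + B` is at most `Z` in absolute value -/
def DiscLe (c : ℤ × ℤ) (Z : ℕ) : Prop := minDisc (E c.1 c.2) ≤ Z

/-- The prime-to-6 part of the conductor of `y² = x³ + A x + B` (there is no prime `p` with `p⁴ ∣ A`
and `p⁶ ∣ B`): the product over the primes `p ≥ 5` dividing `4 A³ + 27 B²` of `p` (multiplicative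
reduction: `p ∤ A`) or `p²` (additive reduction: `p ∣ A`) -/
def Cond6 (c : ℤ × ℤ) : ℕ :=
  ∏ p ∈ (Int.natAbs (4 * c.1 ^ 3 + 27 * c.2 ^ 2)).primeFactors.filter (fun p => 5 ≤ p),
    if (p : ℤ) ∣ c.1 then p ^ 2 else p

/-- the admissible factors: functions with values between `1` and `2 ^ 8 * 3 ^ 5`, for instance the
part of the conductor composed of the primes 2 and 3, or `f = 1` -/
def Factor (f : ℤ × ℤ → ℕ) : Prop := ∀ c, 1 ≤ f c ∧ f c ≤ 2 ^ 8 * 3 ^ 5

/-- the conductor (its prime-to-6 part times the factor `f`) of `y² = x³ + A x + B` is at most `Z` -/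
def CondLe (f : ℤ × ℤ → ℕ) (c : ℤ × ℤ) (Z : ℕ) : Prop := f c * Cond6 c ≤ Z

/-- The pairs `(A, B)` of integers such that `4 A³ + 27 B² ≠ 0`, there is no prime `p` with
`p⁴ ∣ A` and `p⁶ ∣ B`, `Z/2 x Z/2` embeds in the group of the rational points of
`y² = x³ + A x + B`, and the size (`HeightLe`, `DiscLe` or `CondLe f`) is at most `Z`. Every
elliptic curve over `ℚ` with full rational 2-torsion is isomorphic to `E A B` for exactly one pair
with the first three properties. -/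
def Fam (I : ℤ × ℤ → ℕ → Prop) (Z : ℕ) : Set (ℤ × ℤ) :=
  {c : ℤ × ℤ | 4 * c.1 ^ 3 + 27 * c.2 ^ 2 ≠ 0 ∧
    (∀ p : ℕ, p.Prime → ¬ ((p : ℤ) ^ 4 ∣ c.1 ∧ (p : ℤ) ^ 6 ∣ c.2)) ∧
    (∃ f : ZMod 2 × ZMod 2 →+ (E c.1 c.2).toAffine.Point, Function.Injective f) ∧ I c Z}

/-- the proportion of the curves of `S` among the curves of size at most `Z` -/
noncomputable def proportion (I : ℤ × ℤ → ℕ → Prop) (S : Set (ℤ × ℤ)) (Z : ℕ) : ℝ :=
  ((Fam I Z ∩ S).ncard : ℝ) / (Fam I Z).ncard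

lemma FamH_eq (H : ℕ) : Fam HeightLe H = (Pool.Agent.W307.RT.Cv 2 H : Set (ℤ × ℤ)) := by
  classical
  ext c
  have h : Pool.Agent.W307.RT.HasT 2 (Pool.Agent.W307.RT.Sh c.1 c.2) ↔
    ∃ f : ZMod 2 × ZMod 2 →+ (E c.1 c.2).toAffine.Point, Function.Injective f :=
    Pool.Agent.W307.RT.tors_iff
  unfold Fam HeightLe Pool.Agent.W307.RT.Cv
  rw [Set.mem_ofPred_eq, mem_coe, mem_filter, h, mem_product, mem_Icc, mem_Icc]
  constructor
  · rintro ⟨h1, h2, h3, h4, h5⟩
    refine ⟨⟨?_, ?_⟩, h1, h4, h5, h2, h3⟩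
    · rw [← abs_le]
      have h0 := abs_nonneg c.1
      rcases eq_or_lt_of_le h0 with h6 | h6
      · rw [← h6]; positivity
      · have : 1 ≤ |c.1| := h6
        nlinarith [mul_nonneg h0 h0, mul_self_nonneg (|c.1| - 1)]
    · rw [← abs_le]
      have h0 := abs_nonneg c.2
      rw [← sq_abs] at h5
      rcases eq_or_lt_of_le h0 with h6 | h6
      · rw [← h6]; positivity
      · have : 1 ≤ |c.2| := h6
        nlinarith
  · rintro ⟨-, h1, h4, h5, h2, h3⟩
    exact ⟨h1, h2, h3, h4, h5⟩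

lemma FamD_eq (D : ℕ) : Fam DiscLe D = (Pool.Agent.TH344.DS.Dv D : Set (ℤ × ℤ)) := by
  classical
  have h0 : Fam DiscLe D = Pool.Agent.W307.RS.DvS 2 D := by
    ext c
    have h : Pool.Agent.W307.RT.HasT 2 (Pool.Agent.W307.RT.Sh c.1 c.2) ↔
        ∃ f : ZMod 2 × ZMod 2 →+ (E c.1 c.2).toAffine.Point, Function.Injective f :=
      Pool.Agent.W307.RT.tors_iff
    unfold Fam Pool.Agent.W307.RS.DvS
    rw [Set.mem_ofPred_eq, Set.mem_ofPred_eq, h]
    exact Iff.rfl
  rw [h0]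
  unfold Pool.Agent.TH344.DS.Dv
  rw [dif_pos (Pool.Agent.TH344.DS.excd.1 D), Set.Finite.coe_toFinset]

/-- The number of these curves tends to infinity (ordering by height). -/
lemma tendstoH : Tendsto (fun Z : ℕ => (Fam HeightLe Z).ncard) atTop atTop := by
  simp only [FamH_eq, Set.ncard_coe_finset]
  exact Pool.Agent.W307.RT.tendsto_of_low Pool.Agent.W672.FK.lowf

/-- The number of these curves tends to infinity (ordering by the minimal discriminant). -/
lemma tendstoD : Tendsto (fun Z : ℕ => (Fam DiscLe Z).ncard) atTop atTop := by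
  have h1 := Pool.Agent.W307.RT.tendsto_of_low Pool.Agent.W672.FK.lowf
  have h2 : Tendsto (fun D : ℕ => (Pool.Agent.W307.RT.Cv 2 (D / 32)).card) atTop atTop :=
    h1.comp (Nat.tendsto_div_const_atTop (by norm_num))
  obtain ⟨hD1, hD2, hD3⟩ := Pool.Agent.TH344.DS.excd
  refine tendsto_atTop_mono (fun D => ?_) h2
  have h3 : (Pool.Agent.TH344.DS.Dv D : Set (ℤ × ℤ)) = Pool.Agent.W307.RS.DvS 2 D := by
    unfold Pool.Agent.TH344.DS.Dv
    rw [dif_pos (hD1 D), Set.Finite.coe_toFinset]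
  rw [FamD_eq, h3, ← Set.ncard_coe_finset]
  exact Set.ncard_le_ncard (Pool.Agent.W307.RS.Cv_sub Pool.Agent.W554.RS.mdl 2 (D / 32) D
    (Nat.mul_div_le D 32)) (hD1 D)

/-- The curves decided by `φ`: `φ` is defined at `y² - (x³ + a x + b)` and, if
`x³ + a x + b = (x - e₁) (x - e₂) (x - e₃)` with integers `e₁`, `e₂`, `e₃`, `A = e₂ - e₁`,
`B = e₃ - e₁`, at `y² - (d x⁴ - (A + B) x² + A B / d)` for all the divisors `d` of `A B`. -/
def Decided (φ : List (List ℤ) →. Bool) : Set (ℤ × ℤ) :=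
  {c | (φ (cubic c.1 c.2)).Dom ∧ ∀ e₁ e₂ e₃ : ℤ,
    (∀ x : ℤ, x ^ 3 + c.1 * x + c.2 = (x - e₁) * (x - e₂) * (x - e₃)) →
    ∀ d : ℤ, d ∣ (e₂ - e₁) * (e₃ - e₁) → (φ (quartic (e₂ - e₁) (e₃ - e₁) d)).Dom}

/-- the property without the size -/
def Pr (c : ℤ × ℤ) : Prop := 4 * c.1 ^ 3 + 27 * c.2 ^ 2 ≠ 0 ∧
    (∀ p : ℕ, p.Prime → ¬ ((p : ℤ) ^ 4 ∣ c.1 ∧ (p : ℤ) ^ 6 ∣ c.2)) ∧
    (∃ g : ZMod 2 × ZMod 2 →+ (E c.1 c.2).toAffine.Point, Function.Injective g)

lemma good : Pool.Agent.Y679.Cr.Good Pr := by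
  classical
  refine ⟨fun c hc => ⟨?_, ?_⟩, fun H c hc => ?_, Pool.Agent.W672.FK.lowf⟩
  · exact Pool.Agent.Y679.Cr.isMin_of hc.1 hc.2.1
  · exact Pool.Agent.Y679.Cr.full_of (Pool.Agent.W307.RT.tors_iff.2 hc.2.2)
  · unfold Pool.Agent.W307.RT.Cv at hc
    obtain ⟨-, h1, -, -, h2, h3⟩ := mem_filter.1 hc
    exact ⟨h1, h2, Pool.Agent.W307.RT.tors_iff.1 h3⟩

lemma cond_eq (c : ℤ × ℤ) : Pool.Agent.Y679.Cr.cs c = Cond6 c := by
  unfold Pool.Agent.Y679.Cr.cs Pool.Agent.H925R.Szpiro.condS Cond6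
  rw [Pool.Agent.Y679.Cr.D_neg, Int.natAbs_neg]
  refine prod_congr rfl fun p _ => ?_
  by_cases h : (p : ℤ) ∣ c.1
  · rw [if_pos h, if_pos (Int.dvd_neg.2 h)]
  · rw [if_neg h, if_neg fun h' => h (Int.dvd_neg.1 h')]

lemma bdd {f : ℤ × ℤ → ℕ} (hf : Factor f) : Pool.Agent.Y679.Cr.Bdd f :=
  fun c => ⟨(hf c).1, (hf c).2.trans (by norm_num)⟩

lemma FamC_eq (f : ℤ × ℤ → ℕ) (Z : ℕ) : Fam (CondLe f) Z = Pool.Agent.Y679.Cr.Gm Pr f Z := by
  ext c
  unfold Fam CondLe Pool.Agent.Y679.Cr.Gm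
  rw [Set.mem_ofPred_eq, Set.mem_ofPred_eq, cond_eq]
  exact ⟨fun h => ⟨⟨h.1, h.2.1, h.2.2.1⟩, h.2.2.2⟩, fun h => ⟨h.1.1, h.1.2.1, h.1.2.2, h.2⟩⟩

/-- the algorithm -/
def alg : List (List ℤ) →. Bool := fun L =>
  (Part.assert (Pool.Agent.Q323.PA.PF L) fun _ => Part.some ()).map (fun _ => false)

lemma alg_of {c : ℤ × ℤ} (hD : 4 * c.1 ^ 3 + 27 * c.2 ^ 2 ≠ 0)
    (hT : ∃ f : ZMod 2 × ZMod 2 →+ (E c.1 c.2).toAffine.Point, Function.Injective f)
    (h1 : (Pool.Agent.W307.SE.SelR c.1 c.2).Finite)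
    (h2 : (Pool.Agent.W307.SE.SelR c.1 c.2).ncard = 4) : c ∈ Decided alg := by
  have key : ∀ e₁ e₂ e₃ : ℤ,
      (∀ x : ℤ, x ^ 3 + c.1 * x + c.2 = (x - e₁) * (x - e₂) * (x - e₃)) →
      (Pool.Agent.W307.SE.Sel (e₂ - e₁) (e₃ - e₁)).Finite ∧
      (Pool.Agent.W307.SE.Sel (e₂ - e₁) (e₃ - e₁)).ncard ≤ 4 := by
    intro e₁ e₂ e₃ he
    obtain ⟨d12, d13, d23⟩ := Pool.Agent.W402.FK.dist c.1 c.2 e₁ e₂ e₃ hD he
    have hf := Pool.Agent.W307.SE.sel_fin Pool.Agent.W410.FK.seld (sub_ne_zero.2 (Ne.symm d12))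
      (sub_ne_zero.2 (Ne.symm d13)) (fun h' => d23 (by linarith))
    obtain ⟨-, s2⟩ := Pool.Agent.Y212.RZ.SELC2 c.1 c.2 e₁ e₂ e₃ (e₂ - e₁) (e₃ - e₁) 1 hD he
      one_ne_zero (by ring) (by ring) hf
    exact ⟨hf, by omega⟩
  obtain ⟨F, -, hF⟩ := Pool.Agent.W513.FK.parf
  obtain ⟨-, -, -, -, -, e1, e2, e3, he, -, -⟩ := hF c hD (Pool.Agent.W307.RT.tors_iff.2 hT)
  refine ⟨?_, ?_⟩
  · obtain ⟨k1, k2⟩ := key e1 e2 e3 he
    exact ⟨Pool.Agent.Q323.PA.PF_cubic hD he k1 k2, trivial⟩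
  · intro e₁ e₂ e₃ he' d hd
    obtain ⟨d12, d13, d23⟩ := Pool.Agent.W402.FK.dist c.1 c.2 e₁ e₂ e₃ hD he'
    obtain ⟨k1, k2⟩ := key e₁ e₂ e₃ he'
    exact ⟨Pool.Agent.Q323.PA.PF_quartic (sub_ne_zero.2 (Ne.symm d12))
      (sub_ne_zero.2 (Ne.symm d13)) (fun h' => d23 (by linarith)) hd k1 k2, trivial⟩

/-- **Theorem.** There is a partial computable function `φ` from the lists of lists of integers
(polynomials `f(x, y)`) to `{true, false}` such that
(1) if `φ(f)` is defined, then it is `true` if and only if `f` has infinitely many rational zeros;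
(2) order the elliptic curves over `ℚ` with full rational 2-torsion by the naive height, by the
absolute value of the minimal discriminant, or by the conductor (with an arbitrary factor between
`1` and `2 ^ 8 * 3 ^ 5` in the place of its part composed of 2 and 3, and with no bound on the
height): in each ordering there are finitely many curves of size at most `Z`, their number tends
to infinity with `Z`, and a positive proportion of them (the lower density is positive) is decided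
by `φ` in the sense of `Decided`. -/
theorem result : ∃ φ : List (List ℤ) →. Bool, Partrec φ ∧
    (∀ L, ∀ r ∈ φ L, (r = true ↔ (Zeros L).Infinite)) ∧
    ∀ I : ℤ × ℤ → ℕ → Prop,
    (I = HeightLe ∨ I = DiscLe ∨ ∃ f : ℤ × ℤ → ℕ, Factor f ∧ I = CondLe f) →
    (∀ Z : ℕ, (Fam I Z).Finite) ∧ Tendsto (fun Z : ℕ => (Fam I Z).ncard) atTop atTop ∧
    ∃ δ : ℝ, 0 < δ ∧ ∀ᶠ Z : ℕ in atTop, δ ≤ proportion I (Decided φ) Z := by
  classical
  refine ⟨alg, Partrec.map Pool.Agent.Q323.PA.re_PF (Computable.const false).to₂, ?_, ?_⟩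
  · intro L r hr
    obtain ⟨u, hu, rfl⟩ := (Part.mem_map_iff _).1 hr
    have hP : Pool.Agent.Q323.PA.PF L := (Part.mem_assert_iff.1 hu).1
    have h1 : (Zeros L).Finite := Pool.Agent.Q323.PA.PF_sound hP
    constructor
    · intro h
      exact Bool.noConfusion h
    · intro h
      exact absurd h1 h
  obtain ⟨P, hP⟩ : ∃ P : ℤ × ℤ → Prop, P = fun k : ℤ × ℤ =>
      (Pool.Agent.W307.SE.SelR k.1 k.2).Finite ∧
        (Pool.Agent.W307.SE.SelR k.1 k.2).ncard = 4 ∧
        Module.finrank ℤ (Pool.Agent.W307.RT.Sh k.1 k.2).toAffine.Point = 0 := ⟨_, rfl⟩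
  have h0 : ∃ c : ℝ, 0 < c ∧ ∃ H0 : ℕ, ∀ H : ℕ, H0 ≤ H →
      c * ((Pool.Agent.W307.RT.Cv 2 H).card : ℝ) ≤
        (((Pool.Agent.W307.RT.Cv 2 H).filter P).card : ℝ) := by
    obtain ⟨c, hc, H0, h⟩ := Pool.Agent.Y667.RZ.curvesW
    refine ⟨c, hc, H0, fun H hH => (h H hH).1.trans
      (Nat.cast_le.2 (card_le_card fun k hk => ?_))⟩
    rw [mem_filter] at hk ⊢
    rw [hP]
    exact hk
  have hsub : ∀ (I : ℤ × ℤ → ℕ → Prop) (Z : ℕ) (k : ℤ × ℤ), k ∈ Fam I Z → P k →
      k ∈ Fam I Z ∩ Decided alg := by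
    intro I Z k hk hPk
    rw [hP] at hPk
    exact ⟨hk, alg_of hk.1 hk.2.2.1 hPk.1 hPk.2.1⟩
  intro I hI
  rcases hI with rfl | rfl | ⟨f, hf, rfl⟩
  · refine ⟨fun Z => ?_, tendstoH, ?_⟩
    · rw [FamH_eq]
      exact finite_toSet _
    · obtain ⟨c, hc, H0, h⟩ := h0
      refine ⟨c, hc, ?_⟩
      filter_upwards [eventually_ge_atTop H0, tendstoH.eventually_ge_atTop 1] with H hH hH1
      unfold proportion
      rw [le_div_iff₀ (by exact_mod_cast hH1)]
      have e1 : (Fam HeightLe H).ncard = (Pool.Agent.W307.RT.Cv 2 H).card := by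
        rw [FamH_eq, Set.ncard_coe_finset]
      rw [e1]
      refine (h H hH).trans (Nat.cast_le.2 ?_)
      rw [← Set.ncard_coe_finset]
      refine Set.ncard_le_ncard (fun k hk => ?_) (Set.Finite.inter_of_left (by
        rw [FamH_eq]
        exact finite_toSet _) _)
      rw [mem_coe, mem_filter] at hk
      refine hsub _ _ k ?_ hk.2
      rw [FamH_eq, mem_coe]
      exact hk.1
  · refine ⟨fun Z => ?_, tendstoD, ?_⟩
    · rw [FamD_eq]
      exact finite_toSet _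
    · obtain ⟨c, hc, H0, h⟩ := Pool.Agent.Y667.RP.disc_of_height P h0
      refine ⟨c, hc, ?_⟩
      filter_upwards [eventually_ge_atTop H0, tendstoD.eventually_ge_atTop 1] with H hH hH1
      unfold proportion
      rw [le_div_iff₀ (by exact_mod_cast hH1)]
      have e1 : (Fam DiscLe H).ncard = (Pool.Agent.TH344.DS.Dv H).card := by
        rw [FamD_eq, Set.ncard_coe_finset]
      rw [e1]
      refine (h H hH).trans (Nat.cast_le.2 ?_)
      rw [← Set.ncard_coe_finset]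
      refine Set.ncard_le_ncard (fun k hk => ?_) (Set.Finite.inter_of_left (by
        rw [FamD_eq]
        exact finite_toSet _) _)
      rw [mem_coe, mem_filter] at hk
      refine hsub _ _ k ?_ hk.2
      rw [FamD_eq, mem_coe]
      exact hk.1
  · refine ⟨fun Z => ?_, ?_, ?_⟩
    · rw [FamC_eq]
      exact Pool.Agent.Y679.Cr.Gm_fin good (bdd hf) Z
    · simp only [FamC_eq]
      exact Pool.Agent.Y679.Cr.Gm_tendsto good (bdd hf)
    · obtain ⟨δ, hδ, h⟩ := Pool.Agent.Y679.Cr.pos good (T := P) (by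
        obtain ⟨c, hc, H0, h⟩ := h0
        refine ⟨c, hc, H0, fun H hH => ⟨_, fun k hk => ?_, h H hH⟩⟩
        exact mem_filter.1 (mem_coe.1 hk))
      refine ⟨δ, hδ, ?_⟩
      filter_upwards [h f (bdd hf)] with Z hZ
      refine hZ.trans ?_
      unfold proportion
      rw [← FamC_eq]
      refine div_le_div_of_nonneg_right (Nat.cast_le.2 (Set.ncard_le_ncard ?_ (Set.Finite.subset
        (by
          rw [FamC_eq]
          exact Pool.Agent.Y679.Cr.Gm_fin good (bdd hf) Z) Set.inter_subset_left)))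
        (Nat.cast_nonneg _)
      rintro k ⟨h1, h2⟩
      exact hsub _ _ k h1 h2

end Pool.Agent.Results.MP_d6ddbd_nt.PositiveProportionDecided
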