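import Mathlib
import Pool.Agent.TH841.AL.Fin
import Pool.Agent.Q323.FM.Twist

/-!
# A partial algorithm for curves of genus one: all the moments in twist families

We construct a partial computable function `φ` on the set of the polynomials `f(x, y)` with integer
coefficients (lists of coefficient lists), such that, whenever `φ(f)` is defined, the value answers
correctly the question whether `f(x, y) = 0` has infinitely many rational solutions, and consider
the curves of genus one `C : y² = b x⁴ - (A + B) x² + A B / b` (`b` a squarefree divisor of `A B`)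
with points everywhere locally, attached to the quadratic twists by `D(t)` of a fixed elliptic curve
with full 2-torsion, `D` an arbitrary nonzero polynomial. All the moments of the number of the `C`
at which `φ` is undefined are bounded, although the number of the `C` tends to infinity for almost
all `t`.
-/

set_option autoImplicit false

namespace Pool.Agent.Results.MP_d6ddbd_nt.TwistsAllMoments

open Finset Polynomial

/-- the set `Z_f(ℚ)` of the rational zeros of `f = ∑ L_(i,j) x^i y^j` -/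
def Zeros (L : List (List ℤ)) : Set (ℚ × ℚ) := {p : ℚ × ℚ |
  ∑ i ∈ Finset.range L.length, ∑ j ∈ Finset.range (L.getD i []).length,
    (((L.getD i []).getD j 0 : ℤ) : ℚ) * p.1 ^ i * p.2 ^ j = 0}

/-- the polynomial `y² - (b x⁴ - (A + B) x² + A B / b)` -/
def quartic (A B b : ℤ) : List (List ℤ) := [[-(A * B / b), 0, 1], [], [A + B], [], [-b]]

/-- the curve `C : N² = b M⁴ - (A + B) M² e² + (A B / b) e⁴` has a point over `K`, with
`(M, e) ≠ (0, 0)` -/
def Solvable (K : Type) [Field K] (A B b : ℤ) : Prop := ∃ N M e : K, (M ≠ 0 ∨ e ≠ 0) ∧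
  N ^ 2 = (b : K) * M ^ 4 + ((-(A + B) : ℤ) : K) * M ^ 2 * e ^ 2 +
    ((A * B / b : ℤ) : K) * e ^ 4

/-- the squarefree `b ∣ A B` for which `C` has points everywhere locally -/
def ELS (A B : ℤ) : Set ℤ := {b | Squarefree b ∧ b ∣ A * B ∧ Solvable ℝ A B b ∧
  ∀ (p : ℕ) [Fact p.Prime], Solvable ℚ_[p] A B b}

/-- the `b` in `ELS A B` for which the algorithm `φ` does not halt on the input
`y² - (b x⁴ - (A + B) x² + A B / b)` -/
def Undecided (φ : List (List ℤ) →. Bool) (A B : ℤ) : Set ℤ :=
  {b | b ∈ ELS A B ∧ ¬ (φ (quartic A B b)).Dom}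

/-- `v` is a square modulo `f` in `ℚ[t]` -/
def SqMod (f v : ℤ[X]) : Prop := ∃ q : ℚ[X], f.map (Int.castRingHom ℚ) ∣
  (q ^ 2 - v.map (Int.castRingHom ℚ))

open Classical in
/-- the number of the polynomials `g_i` modulo which `A B` is not a square -/
noncomputable def nonSq (A B : ℤ) {m : ℕ} (g : Fin m → ℤ[X]) : ℕ :=
  (univ.filter (fun i => ¬ SqMod (g i) (C A * C B))).card

open Classical in
/-- **Theorem.** There is a partial computable function `φ` from the lists of lists of integers
(polynomials `f(x, y)`) to `{true, false}` such that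
(1) if `φ(f)` is defined, then it is `true` if and only if `f` has infinitely many rational zeros;
in fact `f` has no rational zeros then;
(2) let `A`, `B`, `A - B` be nonzero integers and `D ≠ 0` a polynomial with integer coefficients.
For all `s` and `L` there is `K` such that for all integers `M ≥ 1` and `|N| ≤ M ^ L` the sum of
`(#Undecided φ (A D(t)) (B D(t))) ^ s` over the `t` with `N < t ≤ N + M`, `D(t) ≠ 0` is at most
`K * M`;
(3) if moreover `D = c g₁ ⋯ g_m` with irreducible pairwise non-associated `g_i` of positive degree,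
and `r` is the number of the `g_i` modulo which `A B` is not a square, then for all `ε, η > 0` and
`L` there is `M₀` such that for `M ≥ M₀` and `|N| ≤ M ^ L` the inequality
`#ELS (A D(t)) (B D(t)) ≥ (log M) ^ ((r / 2) log 2 - η)` (and `D(t) ≠ 0`) holds for all the `t` with
`N < t ≤ N + M` with at most `ε M` exceptions. -/
theorem result :
    ∃ φ : List (List ℤ) →. Bool, Partrec φ ∧
    (∀ L, ∀ r ∈ φ L, (r = true ↔ (Zeros L).Infinite)) ∧ (∀ L, (φ L).Dom → Zeros L = ∅) ∧
    ∀ (A B : ℤ) (D : ℤ[X]), A ≠ 0 → B ≠ 0 → A ≠ B → D ≠ 0 →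
    (∀ s L : ℕ, ∃ K : ℝ, ∀ (N : ℤ) (M : ℕ), 1 ≤ M → |N| ≤ (M : ℤ) ^ L →
      ∑ t ∈ (Ioc N (N + (M : ℤ))).filter (fun t => D.eval t ≠ 0),
        ((Undecided φ (A * D.eval t) (B * D.eval t)).ncard : ℝ) ^ s ≤ K * M) ∧
    ∀ (m : ℕ) (c : ℤ) (g : Fin m → ℤ[X]), D = C c * ∏ i, g i →
      (∀ i, Irreducible (g i) ∧ 0 < (g i).natDegree) →
      (∀ i j, i ≠ j → ¬ Associated (g i) (g j)) →
      ∀ (ε η : ℝ) (L : ℕ), 0 < ε → 0 < η →
      ∃ M₀ : ℕ, ∀ (N : ℤ) (M : ℕ), M₀ ≤ M → |N| ≤ (M : ℤ) ^ L →
        (((Ioc N (N + (M : ℤ))).filter (fun t => ¬ (D.eval t ≠ 0 ∧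
          (Real.log M) ^ ((nonSq A B g : ℝ) / 2 * Real.log 2 - η) ≤
            ((ELS (A * D.eval t) (B * D.eval t)).ncard : ℝ)))).card : ℝ) ≤ ε * M := by
  have hre := Pool.Agent.TH841.AL.re_P
  refine ⟨fun L => (Part.assert (Pool.Agent.TH841.AL.P L) fun _ => Part.some ()).map
    (fun _ => false), Partrec.map hre (Computable.const false).to₂, ?_, ?_, ?_⟩
  · intro L r hr
    obtain ⟨u, hu, rfl⟩ := (Part.mem_map_iff _).1 hr
    have hP : Pool.Agent.TH841.AL.P L := (Part.mem_assert_iff.1 hu).1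
    have h1 : Zeros L = ∅ := Pool.Agent.TH841.AL.P_sound L hP
    constructor
    · intro h
      exact Bool.noConfusion h
    · intro h
      rw [h1] at h
      exact absurd Set.finite_empty h
  · rintro L ⟨hP, -⟩
    exact Pool.Agent.TH841.AL.P_sound L hP
  have key : ∀ A B : ℤ, A ≠ 0 → B ≠ 0 → A ≠ B → (Undecided (fun L =>
      (Part.assert (Pool.Agent.TH841.AL.P L) fun _ => Part.some ()).map (fun _ => false)) A B).ncard
      ≤ (Pool.Agent.TH841.FD.LF A B).ncard := by
    intro A B hA hB hAB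
    refine le_trans (Set.ncard_le_ncard ?_ ?_)
      (Pool.Agent.TH841.AL.undecided_le hA hB hAB)
    · rintro b ⟨h1, h2⟩
      exact ⟨h1, fun h3 => h2 ⟨h3, trivial⟩⟩
    · exact (Pool.Agent.TH841.NO.sq_finite (mul_ne_zero hA hB)).subset fun b h => h.1
  generalize (fun L => (Part.assert (Pool.Agent.TH841.AL.P L) fun _ => Part.some ()).map
    (fun _ => false) : List (List ℤ) →. Bool) = φ at key
  intro A B D hA hB hAB hD
  refine ⟨fun s L => ?_, fun m c g hDg hg hgg ε η L hε hη => ?_⟩
  · obtain ⟨K, hK⟩ := Pool.Agent.Q323.FM.tw_mom hA hB hAB hD s L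
    refine ⟨K, fun N M hM hN => le_trans (sum_le_sum fun t ht => ?_) (hK N M hM hN)⟩
    have hd := (mem_filter.1 ht).2
    exact pow_le_pow_left₀ (Nat.cast_nonneg _) (Nat.cast_le.2 (key _ _ (mul_ne_zero hA hd)
      (mul_ne_zero hB hd) fun h' => hAB (mul_right_cancel₀ hd h'))) s
  · exact Pool.Agent.Q323.FM.tw_els hA hB hAB hD hDg hg hgg ε η L hε hη

end Pool.Agent.Results.MP_d6ddbd_nt.TwistsAllMoments
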